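import Mathlib
import Pool.Agent.Helper21.SR.St

/-!
# SR module WK3: mass of the bad steps of the walk
-/

set_option autoImplicit false

namespace Pool.Agent.Helper39.SR

open Finset
open scoped Pointwise
open Pool.Agent.Helper21.SR

theorem rr_eq (A : Finset ℕ) (x y : ℕ) :
    (∑ s ∈ A, ∑ t ∈ A, if x * s = y * t then (1 : ℝ) else 0) = (rr A x y : ℝ) := by
  rw [Finset.sum_comm, ← Finset.sum_product' (s := A) (t := A)
    (f := fun t s => if x * s = y * t then (1 : ℝ) else 0)]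
  rw [Finset.sum_boole]
  unfold rr
  congr 2
  apply Finset.filter_congr
  intro p _
  rw [mul_comm x p.2, mul_comm y p.1]
  exact eq_comm

theorem fr_eq (A : Finset ℕ) (z : ℕ) :
    (∑ y ∈ A, ∑ t ∈ A, if z = y * t then (1 : ℝ) else 0) = (fr A z : ℝ) := by
  rw [← Finset.sum_product' (s := A) (t := A)
    (f := fun y t => if z = y * t then (1 : ℝ) else 0)]
  rw [Finset.sum_boole]
  unfold fr
  congr 2
  apply Finset.filter_congr
  intro p _
  exact eq_comm

theorem first (A : Finset ℕ) (f : ℝ) (hf : 0 < f) :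
    ∑ x ∈ A, ∑ y ∈ A, ∑ s ∈ A, ∑ t ∈ A,
      (if x * s = y * t then (if (fr A (x * s) : ℝ) < f then 1 / (fr A (x * s) : ℝ) else 0) else 0)
      ≤ f * (#(A * A) : ℝ) := by
  have h1 : ∀ x ∈ A, ∑ y ∈ A, ∑ s ∈ A, ∑ t ∈ A,
      (if x * s = y * t then (if (fr A (x * s) : ℝ) < f then 1 / (fr A (x * s) : ℝ) else 0) else 0)
      ≤ ∑ s ∈ A, (if (fr A (x * s) : ℝ) < f then (1 : ℝ) else 0) := by
    intro x _
    rw [Finset.sum_comm]
    refine Finset.sum_le_sum fun s _ => ?_
    have h2 : ∑ y ∈ A, ∑ t ∈ A,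
        (if x * s = y * t then (if (fr A (x * s) : ℝ) < f then 1 / (fr A (x * s) : ℝ) else 0)
          else 0) = (if (fr A (x * s) : ℝ) < f then 1 / (fr A (x * s) : ℝ) else 0) *
          (fr A (x * s) : ℝ) := by
      rw [← fr_eq A (x * s), Finset.mul_sum]
      refine Finset.sum_congr rfl fun y _ => ?_
      rw [Finset.mul_sum]
      refine Finset.sum_congr rfl fun t _ => ?_
      split_ifs <;> simp
    rw [h2]
    split_ifs with h3
    · rw [one_div]
      exact inv_mul_le_one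
    · simp
  refine (Finset.sum_le_sum h1).trans ?_
  rw [← Finset.sum_product' (s := A) (t := A)
    (f := fun x s => if (fr A (x * s) : ℝ) < f then (1 : ℝ) else 0)]
  rw [← Finset.sum_fiberwise_of_maps_to (s := A ×ˢ A) (t := A * A) (g := fun p => p.1 * p.2)
    (fun p hp => Finset.mul_mem_mul (Finset.mem_product.1 hp).1 (Finset.mem_product.1 hp).2)]
  have h4 : ∀ z ∈ A * A, ∑ p ∈ (A ×ˢ A).filter (fun p => p.1 * p.2 = z),
      (if (fr A (p.1 * p.2) : ℝ) < f then (1 : ℝ) else 0) ≤ f := by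
    intro z _
    have h5 : ∑ p ∈ (A ×ˢ A).filter (fun p => p.1 * p.2 = z),
        (if (fr A (p.1 * p.2) : ℝ) < f then (1 : ℝ) else 0) =
        ∑ p ∈ (A ×ˢ A).filter (fun p => p.1 * p.2 = z),
        (if (fr A z : ℝ) < f then (1 : ℝ) else 0) := by
      refine Finset.sum_congr rfl fun p hp => ?_
      rw [(Finset.mem_filter.1 hp).2]
    rw [h5, Finset.sum_const, nsmul_eq_mul]
    have h6 : (((A ×ˢ A).filter (fun p => p.1 * p.2 = z)).card : ℝ) = (fr A z : ℝ) := rfl
    rw [h6]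
    split_ifs with h7
    · rw [mul_one]; exact h7.le
    · rw [mul_zero]; exact hf.le
  refine (Finset.sum_le_sum h4).trans ?_
  rw [Finset.sum_const, nsmul_eq_mul, mul_comm]

theorem hWk3 : StWk3 := by
  intro A f ρ _ hne hf _
  classical
  have hn : (0 : ℝ) < #A := by exact_mod_cast hne.card_pos
  have hpt : ∀ x ∈ A, ∀ y ∈ A, wk A x y - wg A f ρ x y ≤
      (1 / (#A : ℝ)) * (∑ s ∈ A, ∑ t ∈ A, (if x * s = y * t then
        (if (fr A (x * s) : ℝ) < f then 1 / (fr A (x * s) : ℝ) else 0) else 0)) +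
      (1 / ((#A : ℝ) * f)) * (if ρ < (rr A x y : ℝ) then (rr A x y : ℝ) else 0) := by
    intro x _ y _
    have e1 : (1 / ((#A : ℝ) * f)) * (if ρ < (rr A x y : ℝ) then (rr A x y : ℝ) else 0) =
        (1 / (#A : ℝ)) * ∑ s ∈ A, ∑ t ∈ A,
          (if ρ < (rr A x y : ℝ) then (1 / f) * (if x * s = y * t then (1 : ℝ) else 0)
            else 0) := by
      by_cases h : ρ < (rr A x y : ℝ)
      · simp only [if_pos h]
        simp only [← Finset.mul_sum]
        rw [rr_eq A x y]
        field_simp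
      · simp only [if_neg h]
        simp
    rw [e1, ← mul_add, ← Finset.sum_add_distrib]
    unfold wk wg
    rw [← mul_sub, ← Finset.sum_sub_distrib]
    apply mul_le_mul_of_nonneg_left _ (by positivity)
    refine Finset.sum_le_sum fun s _ => ?_
    rw [← Finset.sum_sub_distrib, ← Finset.sum_add_distrib]
    refine Finset.sum_le_sum fun t _ => ?_
    by_cases h1 : x * s = y * t
    · simp only [if_pos h1]
      by_cases h2 : f ≤ (fr A (x * s) : ℝ)
      · have h2' : ¬ (fr A (x * s) : ℝ) < f := not_lt.2 h2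
        by_cases h3 : (rr A x y : ℝ) ≤ ρ
        · rw [if_pos ⟨h1, h2, h3⟩, if_neg h2', if_neg (not_lt.2 h3)]
          simp
        · rw [if_neg (fun h => h3 h.2.2), if_neg h2', if_pos (not_le.1 h3)]
          have h4 : 1 / (fr A (x * s) : ℝ) ≤ 1 / f := one_div_le_one_div_of_le hf h2
          linarith
      · rw [if_neg (fun h => h2 h.2.1), if_pos (not_le.1 h2)]
        have h5 : 0 ≤ (if ρ < (rr A x y : ℝ) then (1 / f) * (1 : ℝ) else 0) := by
          split_ifs
          · positivity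
          · exact le_refl _
        linarith
    · have h6 : ¬ (x * s = y * t ∧ f ≤ (fr A (x * s) : ℝ) ∧ (rr A x y : ℝ) ≤ ρ) :=
        fun h => h1 h.1
      rw [if_neg h1, if_neg h6, if_neg h1, if_neg h1]
      simp
  refine (Finset.sum_le_sum fun x hx => Finset.sum_le_sum fun y hy => hpt x hx y hy).trans ?_
  simp only [Finset.sum_add_distrib, ← Finset.mul_sum]
  have h7 := first A f hf
  have h8 : (1 / (#A : ℝ)) * (∑ x ∈ A, ∑ y ∈ A, ∑ s ∈ A, ∑ t ∈ A,
      (if x * s = y * t then (if (fr A (x * s) : ℝ) < f then 1 / (fr A (x * s) : ℝ) else 0)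
        else 0)) ≤ f * (#(A * A) : ℝ) / (#A : ℝ) := by
    have e2 : f * (#(A * A) : ℝ) / (#A : ℝ) = (1 / (#A : ℝ)) * (f * (#(A * A) : ℝ)) := by ring
    rw [e2]
    exact mul_le_mul_of_nonneg_left h7 (by positivity)
  have h9 : (1 / ((#A : ℝ) * f)) * (∑ x ∈ A, ∑ y ∈ A,
      (if ρ < (rr A x y : ℝ) then (rr A x y : ℝ) else 0)) = Eb A ρ / ((#A : ℝ) * f) := by
    have e3 : Eb A ρ / ((#A : ℝ) * f) = (1 / ((#A : ℝ) * f)) * Eb A ρ := by ring
    rw [e3]
    unfold Eb
    congr 1
  rw [h9]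
  exact add_le_add h8 le_rfl

end Pool.Agent.Helper39.SR
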